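import Pool.Agent.T9h20.TG.Spec

/-! # The value as a polynomial in the factors -/

set_option autoImplicit false

namespace Pool.Agent.T9h91.TG

open MvPolynomial Pool.Agent.T9h20.TG

theorem kill {q t : ℕ} (s : Fin q → Fin t) (hf : Function.Injective fun j : Fin q => (j, s j))
    (j : Fin q) (r : Fin t) : killCompl (R := ℝ) hf (X (j, r)) = if r = s j then X j else 0 := by
  split_ifs with h
  · have := killCompl_rename_app (R := ℝ) hf (X j)
    rw [rename_X] at this
    rw [h]
    exact this
  · have hn : (j, r) ∉ Set.range fun j : Fin q => (j, s j) := by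
      rintro ⟨j', hj'⟩
      have h1 : j' = j := congrArg Prod.fst hj'
      have h2 : s j' = r := congrArg Prod.snd hj'
      exact h (by rw [← h2, h1])
    rw [killCompl, aeval_X, dif_neg hn]

theorem sPoly : SPoly := by
  classical
  intro k q t m B al A hal hm
  refine ⟨∑ i, C (B i) * ∏ j, (∑ s, C (A j s) * X (j, s)) ^ al i j, fun z => by simp,
    fun r => ?_, fun i s => ?_⟩
  · refine (degreeOf_sum_le _ _ _).trans (Finset.sup_le fun i _ => ?_)
    refine (degreeOf_C_mul_le _ _ _).trans ((degreeOf_prod_le _ _ _).trans ?_)
    refine (Finset.sum_le_sum fun j _ => ?_).trans (hm i)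
    refine (degreeOf_pow_le _ _ _).trans ?_
    have h1 : degreeOf r (∑ s, C (A j s) * X (j, s) : MvPolynomial (Fin q × Fin t) ℝ) ≤ 1 := by
      refine (degreeOf_sum_le _ _ _).trans (Finset.sup_le fun s _ => ?_)
      refine (degreeOf_C_mul_le _ _ _).trans ?_
      rw [degreeOf_X]
      split_ifs <;> omega
    calc al i j * degreeOf r (∑ s, C (A j s) * X (j, s) : MvPolynomial (Fin q × Fin t) ℝ)
        ≤ al i j * 1 := Nat.mul_le_mul_left _ h1
      _ = al i j := mul_one _
  · have hf : Function.Injective fun j : Fin q => (j, s j) := fun a b h => congrArg Prod.fst h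
    set e : Fin k → Fin q →₀ ℕ := fun i => Finsupp.equivFunOnFinite.symm (al i) with he
    refine ⟨(e i).mapDomain fun j : Fin q => (j, s j), ?_⟩
    rw [← coeff_killCompl (hf := hf)]
    have h1 : killCompl (R := ℝ) hf (∑ i, C (B i) * ∏ j, (∑ s, C (A j s) * X (j, s)) ^ al i j) =
        ∑ i, monomial (e i) (B i * ∏ j, A j (s j) ^ al i j) := by
      rw [map_sum]
      refine Finset.sum_congr rfl fun i _ => ?_
      rw [map_mul, killCompl_C, map_prod]
      have h2 : ∀ j, killCompl (R := ℝ) hf ((∑ s, C (A j s) * X (j, s)) ^ al i j) =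
          C (A j (s j) ^ al i j) * X j ^ al i j := by
        intro j
        rw [map_pow, map_sum]
        simp only [map_mul, killCompl_C, kill s hf]
        rw [Finset.sum_eq_single (s j)]
        · rw [if_pos rfl, mul_pow, map_pow]
        · intro r _ hr
          rw [if_neg hr, mul_zero]
        · intro h
          exact absurd (Finset.mem_univ _) h
      simp only [h2]
      rw [Finset.prod_mul_distrib, monomial_eq, Finsupp.prod_fintype _ _ (fun j => pow_zero _),
        map_mul, map_prod, mul_assoc]
      rfl
    rw [h1, coeff_sum, Finset.sum_eq_single i]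
    · rw [coeff_monomial, if_pos rfl]
    · intro i' _ hi'
      rw [coeff_monomial, if_neg]
      intro h
      exact hi' (hal (Finsupp.equivFunOnFinite.symm.injective h))
    · intro h
      exact absurd (Finset.mem_univ _) h

end Pool.Agent.T9h91.TG
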